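import Mathlib
import Pool.Agent.X273.DivDefs
import Pool.Agent.X273.DivIso

set_option autoImplicit false

/-!
# Weak fp-envelopes over the integral divided power algebra are not unique

For an integer `c` let `N_c` be the graded module over the divided power algebra `D` over `ℤ` with
generators `f` (degree `0`) and `g` (degree `4`) and relations `x f = 0` and
`x g = c x^{[5]} f`. Then `N_1` and `N_2` are finitely presented and not isomorphic, but their
truncations `τ_{≥ 5}` are isomorphic.
-/

namespace Pool.Agent.Results.MP_c3bf79_al.EnvelopesNotUnique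

open Pool.Agent.X273.Div

theorem result : ∃ N N' : GrMod, FP N ∧ FP N' ∧ IsEmpty (Iso N N') ∧
    ∃ n : ℤ, Nonempty (Iso (trunc n N) (trunc n N')) :=
  ⟨NN 1, NN 2, NN_fp 1, NN_fp 2, not_iso, 5, ⟨tIso⟩⟩

end Pool.Agent.Results.MP_c3bf79_al.EnvelopesNotUnique
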